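import Pool.Agent.H705.GB.Stm

/-! # DEN: from the limit law and the law of large numbers to densities, for all `t`

Adaptation (helper539) of `Pool.Agent.H363.TR.T_DEN` (helper363). -/

set_option autoImplicit false

namespace Pool.Agent.H539.GB

open Pool.Agent.H705.GB MeasureTheory ProbabilityTheory Finset Filter Topology

lemma card_mono (x : ℕ) (Q Q' : ℕ → Prop) {_ : DecidablePred Q} {_ : DecidablePred Q'}
    (h : ∀ N, N < x → Q N → Q' N) :
    (((range x).filter Q).card : ℝ) / x ≤ (((range x).filter Q').card : ℝ) / x := by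
  apply div_le_div_of_nonneg_right _ (Nat.cast_nonneg x)
  apply Nat.cast_le.2
  apply Finset.card_le_card
  intro N hN
  rw [Finset.mem_filter, Finset.mem_range] at hN ⊢
  exact ⟨hN.1, h N hN.1 hN.2⟩

lemma card_mono3 (x : ℕ) (Q Q' : ℕ → Prop) {_ : DecidablePred Q} {_ : DecidablePred Q'}
    (h : ∀ N, N < x → 3 ≤ N → Q N → Q' N) :
    (((range x).filter Q).card : ℝ) / x ≤ (((range x).filter Q').card : ℝ) / x + 3 / x := by
  rw [← add_div]
  apply div_le_div_of_nonneg_right _ (Nat.cast_nonneg x)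
  have h1 : ((range x).filter Q).card ≤ ((range x).filter Q').card + 3 := by
    have h2 : (range x).filter Q ⊆ (range x).filter Q' ∪ range 3 := by
      intro N hN
      rw [Finset.mem_filter, Finset.mem_range] at hN
      rw [Finset.mem_union, Finset.mem_filter, Finset.mem_range, Finset.mem_range]
      rcases lt_or_ge N 3 with h6 | h6
      · exact Or.inr h6
      · exact Or.inl ⟨hN.1, h N hN.1 h6 hN.2⟩
    refine (Finset.card_le_card h2).trans ((Finset.card_union_le _ _).trans ?_)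
    rw [Finset.card_range]
  exact_mod_cast h1

/-- locality of the event -/
lemma loc (hRUN : P_RUN) (hFLB : P_FLB) (t : ℝ) (ht1 : t ≤ 1) (N : ℕ)
    (v w : ℕ → ℕ) (h : ∀ i, N ≤ i + Nat.sqrt N + 6 → i ≤ N + Nat.sqrt N + 6 → v i = w i) :
    (3 ≤ N ∧ (N : ℝ) - F (par v) N ≤ (N : ℝ) ^ (t / 2)) ↔
      (3 ≤ N ∧ (N : ℝ) - F (par w) N ≤ (N : ℝ) ^ (t / 2)) := by
  apply and_congr_right
  intro hN
  have hW : ∀ x : ℕ → ℕ, ((N : ℝ) - F x N ≤ (N : ℝ) ^ (t / 2)) ↔
      ⌈(N : ℝ) + 1 - (N : ℝ) ^ (t / 2)⌉₊ ≤ fl x N 2 N := by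
    intro x
    rw [Nat.ceil_le, ← (hRUN x N hN).2]
    push_cast
    constructor
    · intro h1
      linarith
    · intro h1
      linarith
  rw [hW (par v), hW (par w)]
  apply hFLB.2.1
  intro i hi1 hi2
  have h4 : N ≤ i + Nat.sqrt N + 6 := by
    rw [Nat.ceil_le] at hi1
    have hN1 : (1 : ℝ) ≤ N := by
      have : 1 ≤ N := by omega
      exact_mod_cast this
    have h1 : (N : ℝ) ^ (t / 2) ≤ √(N : ℝ) := by
      rw [Real.sqrt_eq_rpow]
      exact Real.rpow_le_rpow_of_exponent_le hN1 (by linarith)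
    have h2 : √(N : ℝ) < (Nat.sqrt N : ℝ) + 1 := Real.real_sqrt_lt_nat_sqrt_succ
    have h3 : (N : ℝ) < ((i + Nat.sqrt N + 6 : ℕ) : ℝ) := by
      push_cast
      linarith
    have h4 : N < i + Nat.sqrt N + 6 := by exact_mod_cast h3
    exact h4.le
  constructor
  · unfold par
    rw [h i h4 (by omega)]
  · unfold par
    rw [h (2 * N - i) (by omega) (by omega)]

lemma left_rat {t a : ℝ} (ht : 0 < t) (ha : a < t ^ 2) : ∃ q : ℚ, 0 < (q : ℝ) ∧ (q : ℝ) < t ∧
    a < (q : ℝ) ^ 2 := by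
  have h1 : Tendsto (fun s : ℝ => s ^ 2) (𝓝[<] t) (𝓝 (t ^ 2)) :=
    ((continuous_pow 2).tendsto t).mono_left nhdsWithin_le_nhds
  have h2 : ∀ᶠ s in 𝓝[<] t, a < s ^ 2 := h1.eventually (lt_mem_nhds ha)
  have h3 : ∀ᶠ s in 𝓝[<] t, 0 < s :=
    (tendsto_id.mono_left nhdsWithin_le_nhds).eventually (lt_mem_nhds ht)
  have h4 : ∀ᶠ s in 𝓝[<] t, s < t := eventually_mem_nhdsWithin
  obtain ⟨s, ⟨hs1, hs2⟩, hs3⟩ := ((h2.and h3).and h4).exists
  obtain ⟨q, hq1, hq2⟩ := exists_rat_btwn hs3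
  exact ⟨q, hs2.trans hq1, hq2, hs1.trans (pow_lt_pow_left₀ hq1 hs2.le (by norm_num))⟩

lemma right_rat {t b : ℝ} (ht0 : 0 < t) (ht : t ≤ 1) (hb : t ^ 2 < b) : ∃ q : ℚ, t ≤ (q : ℝ) ∧
    (q : ℝ) ≤ 1 ∧ (q : ℝ) ^ 2 < b := by
  rcases ht.eq_or_lt with h | h
  · refine ⟨1, ?_, ?_, ?_⟩
    · rw [h]
      norm_num
    · norm_num
    · rw [h] at hb
      norm_num at hb ⊢
      exact hb
  · have h1 : Tendsto (fun s : ℝ => s ^ 2) (𝓝[>] t) (𝓝 (t ^ 2)) :=
      ((continuous_pow 2).tendsto t).mono_left nhdsWithin_le_nhds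
    have h2 : ∀ᶠ s in 𝓝[>] t, s ^ 2 < b := h1.eventually (gt_mem_nhds hb)
    have h3 : ∀ᶠ s in 𝓝[>] t, s < 1 :=
      (tendsto_id.mono_left nhdsWithin_le_nhds).eventually (gt_mem_nhds h)
    have h4 : ∀ᶠ s in 𝓝[>] t, t < s := eventually_mem_nhdsWithin
    obtain ⟨s, ⟨hs1, hs2⟩, hs3⟩ := ((h2.and h3).and h4).exists
    obtain ⟨q, hq1, hq2⟩ := exists_rat_btwn hs3
    exact ⟨q, hq1.le, (hq2.trans hs2).le,
      (pow_lt_pow_left₀ hq2 (ht0.trans hq1).le (by norm_num)).trans hs1⟩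

theorem T_DEN (hRUN : P_RUN) (hFLB : P_FLB) (hLAW : P_LAW) (hLLN : P_LLN) : P_DEN := by
  classical
  intro Ω _ M P Y hM hmod
  -- all rational values
  have hq : ∀ᵐ ω ∂P, ∀ q : ℚ, 0 < (q : ℝ) → (q : ℝ) ≤ 1 → Tendsto (fun x : ℕ =>
      (((range x).filter (fun N : ℕ => 3 ≤ N ∧
        (N : ℝ) - F (par fun m => Y m ω) N ≤ (N : ℝ) ^ ((q : ℝ) / 2))).card : ℝ) / x) atTop
          (𝓝 ((q : ℝ) ^ 2)) := by
    rw [ae_all_iff]
    intro q
    by_cases h0 : 0 < (q : ℝ)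
    · by_cases h1 : (q : ℝ) ≤ 1
      · have hlim : Tendsto (fun N : ℕ => P.real {ω | 3 ≤ N ∧
            (N : ℝ) - F (par fun m => Y m ω) N ≤ (N : ℝ) ^ ((q : ℝ) / 2)}) atTop (𝓝 ((q : ℝ) ^ 2)) := by
          apply (hLAW Ω M P Y hM hmod q h0 h1).congr'
          filter_upwards [eventually_ge_atTop 3] with N hN
          have e : {ω | 3 ≤ N ∧ (N : ℝ) - F (par fun m => Y m ω) N ≤ (N : ℝ) ^ ((q : ℝ) / 2)} =
              {ω | (N : ℝ) - F (par fun m => Y m ω) N ≤ (N : ℝ) ^ ((q : ℝ) / 2)} := by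
            ext ω
            simp only [Set.mem_ofPred_eq]
            exact ⟨fun h => h.2, fun h => ⟨hN, h⟩⟩
          rw [e]
        have hl := hLLN Ω P Y hmod.prob hmod.meas hmod.indep
          (fun N x => 3 ≤ N ∧ (N : ℝ) - F (par x) N ≤ (N : ℝ) ^ ((q : ℝ) / 2)) ((q : ℝ) ^ 2)
          (fun N v w h => loc hRUN hFLB q h1 N v w h) hlim
        filter_upwards [hl] with ω hω _ _
        refine hω.congr fun x => le_antisymm ?_ ?_
        · exact card_mono x _ _ fun N _ h => h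
        · exact card_mono x _ _ fun N _ h => h
      · exact Filter.Eventually.of_forall fun ω _ h => absurd h h1
    · exact Filter.Eventually.of_forall fun ω h => absurd h h0
  filter_upwards [hq] with ω hω t ht0 ht1
  rw [tendsto_order]
  constructor
  · intro a ha
    obtain ⟨q, hq0, hqt, hqa⟩ := left_rat ht0 ha
    have h1 := (hω q hq0 (hqt.le.trans ht1)).eventually (lt_mem_nhds hqa)
    filter_upwards [h1] with x hx
    refine hx.trans_le (card_mono x _ _ fun N _ h => ?_)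
    have hN1 : (1 : ℝ) ≤ N := by
      have : 1 ≤ N := by omega
      exact_mod_cast this
    exact h.2.trans (Real.rpow_le_rpow_of_exponent_le hN1 (by linarith))
  · intro b hb
    obtain ⟨q, hqt, hq1, hqb⟩ := right_rat ht0 ht1 hb
    have h0 : Tendsto (fun x : ℕ => (3 : ℝ) / x) atTop (𝓝 0) :=
      tendsto_const_div_atTop_nhds_zero_nat 3
    have h1 := (hω q (ht0.trans_le hqt) hq1).add h0
    rw [add_zero] at h1
    filter_upwards [h1.eventually (gt_mem_nhds hqb)] with x hx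
    refine (card_mono3 x _ _ fun N _ h6 h => ?_).trans_lt hx
    have hN1 : (1 : ℝ) ≤ N := by
      have : 1 ≤ N := by omega
      exact_mod_cast this
    exact ⟨h6, h.trans (Real.rpow_le_rpow_of_exponent_le hN1 (by linarith))⟩

end Pool.Agent.H539.GB
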